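import Pool.Agent.H85.SA.Def

/-!
# [H37 SFA CGR] SF phase 2 (MP_821da1_nt), K3: the certificate depends only on the members of the families in their range

`jets_congr`: `Jets q d` uses only `s`, `W`, `m`, `l` and `b k i u` for `k < m`, `i < s`, `u < 4 W`.
`cer_congr`: the same for `Cer F q κ Z d`.
-/

set_option autoImplicit false

namespace Pool.Agent.H37.SFA

open Pool.Agent.H98.AL Pool.Agent.H85.SA

theorem jets_congr {q : Polynomial ℤ} {d d' : Dt} (h : Jets q d) (hs : d'.s = d.s) (hW : d'.W = d.W)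
    (hm : d'.m = d.m) (hl : d'.l = d.l)
    (hb : ∀ k < d.m, ∀ i < d.s, ∀ u < 4 * d.W, d'.b k i u = d.b k i u) : Jets q d' := by
  obtain ⟨M, μ, ν, ro, Q, h1, h2, h3, h4, h5⟩ := h
  refine ⟨M, μ, ν, ro, Q, h1, h2, h3, h4, ?_⟩
  rw [hs, hW, hm, hl]
  intro i₀ hi₀ hi₀' j₀ hj₀ i₁ hi₁ u₁ hu₁
  obtain ⟨w, ν', hν', h6⟩ := h5 i₀ hi₀ hi₀' j₀ hj₀ i₁ hi₁ u₁ hu₁
  refine ⟨w, ν', hν', fun j hj hbl i hi u hu => ?_⟩
  obtain ⟨κ, R, hκ, h7⟩ := h6 j hj hbl i hi u hu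
  refine ⟨κ, R, hκ, ?_⟩
  rw [← h7]
  have hu4 : u < 4 * d.W := lt_of_lt_of_le hu (Nat.mul_le_mul_right _ hi₀')
  have h8 : ∑ k ∈ Finset.range d.m, w k * hmu (d'.b k i u) d.l (ro j) μ =
      ∑ k ∈ Finset.range d.m, w k * hmu (d.b k i u) d.l (ro j) μ :=
    Finset.sum_congr rfl fun k hk => by rw [hb k (Finset.mem_range.1 hk) i hi u hu4]
  rw [h8]

theorem cer_congr {F : P2} {q : Polynomial ℤ} {κ Z : ℕ} {d d' : Dt} (h : Cer F q κ Z d)
    (hc : d'.c = d.c) (he : d'.e = d.e) (hs : d'.s = d.s) (hW : d'.W = d.W) (hmm : d'.m = d.m)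
    (hl : d'.l = d.l) (hD : d'.D = d.D) (hpi : d'.pi = d.pi) (hv : d'.v = d.v) (hg : d'.g = d.g)
    (heta : d'.eta = d.eta) (hlam0 : d'.lam0 = d.lam0) (hU : d'.U = d.U) (hV : d'.V = d.V)
    (hN0 : d'.N0 = d.N0) (hz : ∀ i < d.s, d'.z i = d.z i) (hphi : ∀ k < d.m, d'.phi k = d.phi k)
    (hrho : ∀ k < d.m, d'.rho k = d.rho k) (hlam : ∀ k < d.m, d'.lam k = d.lam k)
    (hb : ∀ k < d.m, ∀ i < d.s, ∀ u < 4 * d.W, d'.b k i u = d.b k i u) : Cer F q κ Z d' where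
  Z2 := h.Z2
  cZ := by rw [hc]; exact h.cZ
  lc := by rw [hc]; exact h.lc
  dZ := by rw [hc]; exact h.dZ
  FZ := by rw [hc]; exact h.FZ
  e1 := by rw [he]; exact h.e1
  eZ := by rw [he]; exact h.eZ
  s1 := by rw [hs]; exact h.s1
  sZ := by rw [hs]; exact h.sZ
  W1 := by rw [hW]; exact h.W1
  WZ := by rw [hW]; exact h.WZ
  mZ := by rw [hmm]; exact h.mZ
  lZ := by rw [hl]; exact h.lZ
  D0 := by rw [hD]; exact h.D0
  DZ := by rw [hD]; exact h.DZ
  qZ := h.qZ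
  eq1 := by rw [hc, he, hD, hpi, hv]; exact h.eq1
  bpi := by rw [hc, hD, hpi]; exact h.bpi
  bv := by rw [hc, hD, hv]; exact h.bv
  bt := by rw [hc, he, hD, hpi]; exact h.bt
  bg := by rw [hc, hD, hg]; exact h.bg
  beta := by rw [hc, hD, heta]; exact h.beta
  eq2 := by rw [hc, hD, hg, hW, heta, hpi]; exact h.eq2
  bz := by
    rw [hc, hD, hs]
    intro i hi
    rw [hz i hi]
    exact h.bz i hi
  brho := by
    rw [hc, hD, hmm]
    intro k hk
    rw [hrho k hk]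
    exact h.brho k hk
  blb := by
    rw [hmm, hs, hW, hl]
    intro k hk i hi u hu
    rw [hb k hk i hi u hu]
    exact h.blb k hk i hi u hu
  eq4 := by
    rw [hc, hD, hmm, hpi, hW, hl, hs, hg]
    intro k hk
    rw [hphi k hk, hrho k hk]
    have h1 : ∑ i ∈ Finset.range d.s, ∑ u ∈ Finset.range (4 * d.W),
        hm (d'.b k i u) d.l d.g (em d.D) * d'.z i * d.pi ^ u * em d.D ^ (4 * d.W - u) =
        ∑ i ∈ Finset.range d.s, ∑ u ∈ Finset.range (4 * d.W),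
        hm (d.b k i u) d.l d.g (em d.D) * d.z i * d.pi ^ u * em d.D ^ (4 * d.W - u) :=
      Finset.sum_congr rfl fun i hi => Finset.sum_congr rfl fun u hu => by
        rw [hb k hk i (Finset.mem_range.1 hi) u (Finset.mem_range.1 hu), hz i (Finset.mem_range.1 hi)]
    rw [h1]
    exact h.eq4 k hk
  ig := by
    rw [hc, hD, hmm]
    intro k hk
    rw [hphi k hk]
    exact h.ig k hk
  l0 := by rw [hlam0]; exact h.l0
  eq5 := by
    rw [hc, hD, hmm, hlam0]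
    have h1 : ∑ k ∈ Finset.range d.m, MvPolynomial.C (d'.lam k) * d'.phi k =
        ∑ k ∈ Finset.range d.m, MvPolynomial.C (d.lam k) * d.phi k :=
      Finset.sum_congr rfl fun k hk => by
        rw [hlam k (Finset.mem_range.1 hk), hphi k (Finset.mem_range.1 hk)]
    rw [h1]
    exact h.eq5
  n0 := by rw [hN0]; exact h.n0
  UZ := by rw [hU]; exact h.UZ
  VZ := by rw [hV]; exact h.VZ
  eq6 := by rw [hU, hV, hN0]; exact h.eq6
  jets := jets_congr h.jets hs hW hmm hl hb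
  num := by rw [hW, hs]; exact h.num

end Pool.Agent.H37.SFA
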