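import Pool.Agent.H69.SFA.Cerc
import Pool.Agent.H65.RG.Def

/-!
# [H37 SFA CR2] SF phase 2 (MP_821da1_nt), K3: the existence of Runge's certificate `Cer2` is recursively enumerable

`sr_rl`: the relation `Rl`. `drOf`: codes of the data. `sr_cer2`: `SR fun a => ∃ d, Cer2 (F a) (Z a) d`.
-/

set_option autoImplicit false

namespace Pool.Agent.H37.SFA

open MvPolynomial Pool.Agent.H8.Siegel Pool.Agent.H69.AL Pool.Agent.H98.AL Pool.Agent.H85.SA
  Pool.Agent.H65.RG Pool.Agent.H69.SFA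

variable {α : Type*} [Primcodable α]

theorem hmu_eval (b : Polynomial ℤ) (τ : ℤ) :
    hmu b b.natDegree (Polynomial.C τ) 1 = Polynomial.C (b.eval τ) := by
  unfold hmu
  rw [Polynomial.eval_eq_sum_range, map_sum]
  refine Finset.sum_congr rfl fun i _ => ?_
  rw [one_pow, mul_one, map_mul, map_pow]

theorem uc_eval {s : α → Polynomial ℤ} {τ : α → ℤ} (hs : UC s) (hτ : IC τ) :
    UC fun a => Polynomial.C ((s a).eval (τ a)) := by
  have h := hs.hmu hs.natDegree (UC.C hτ) (IC.const 1)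
  simpa only [hmu_eval] using h

theorem uc_spl {N : α → ℕ} {s : α → ℕ → Polynomial ℤ} {τ : α → ℤ} (hN : Primrec N)
    (hs : UC fun p : α × ℕ => s p.1 p.2) (hτ : IC τ) : UC fun a => spl (N a) (s a) (τ a) := by
  unfold spl
  exact UC.sum (F := fun a j => Polynomial.C ((s a j).eval (τ a)) * Polynomial.X ^ (N a - j))
    ((uc_eval (s := fun p : α × ℕ => s p.1 p.2) hs (hτ.comp Primrec.fst)).mul
      (UC.X.pow (Primrec.nat_sub.comp (hN.comp Primrec.fst) Primrec.snd))) (Primrec.succ.comp hN)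

/-- the witness of `Rl` -/
abbrev RW : Type := ℕ × List Code × Code × (ℕ × ℕ) × (ℕ × ℕ) × Code × Code × (ℕ × ℕ)

theorem spl_congr {N : ℕ} {s s' : ℕ → Polynomial ℤ} {τ : ℤ} (h : ∀ j < N + 1, s j = s' j) :
    spl N s τ = spl N s' τ :=
  Finset.sum_congr rfl fun j hj => by rw [h j (Finset.mem_range.1 hj)]

theorem sr_rl {G D A : α → P2} {Z : α → ℕ} (hG : PC G) (hZ : Primrec Z) (hD : PC D) (hA : PC A) :
    SR fun a => Rl (G a) (Z a) (D a) (A a) := by
  have hw : Primrec fun p : α × RW => p.2 := Primrec.snd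
  have i0 : Primrec fun p : α × RW => p.1 := Primrec.fst
  have w1 : Primrec fun p : α × RW => p.2.1 := Primrec.fst.comp hw
  have r1 : Primrec fun p : α × RW => p.2.2 := Primrec.snd.comp hw
  have w2 : Primrec fun p : α × RW => p.2.2.1 := Primrec.fst.comp r1
  have r2 : Primrec fun p : α × RW => p.2.2.2 := Primrec.snd.comp r1
  have w3 : Primrec fun p : α × RW => p.2.2.2.1 := Primrec.fst.comp r2
  have r3 : Primrec fun p : α × RW => p.2.2.2.2 := Primrec.snd.comp r2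
  have w4 : Primrec fun p : α × RW => p.2.2.2.2.1 := Primrec.fst.comp r3
  have r4 : Primrec fun p : α × RW => p.2.2.2.2.2 := Primrec.snd.comp r3
  have w5 : Primrec fun p : α × RW => p.2.2.2.2.2.1 := Primrec.fst.comp r4
  have r5 : Primrec fun p : α × RW => p.2.2.2.2.2.2 := Primrec.snd.comp r4
  have w6 : Primrec fun p : α × RW => p.2.2.2.2.2.2.1 := Primrec.fst.comp r5
  have r6 : Primrec fun p : α × RW => p.2.2.2.2.2.2.2 := Primrec.snd.comp r5
  have w7 : Primrec fun p : α × RW => p.2.2.2.2.2.2.2.1 := Primrec.fst.comp r6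
  have w8 : Primrec fun p : α × RW => p.2.2.2.2.2.2.2.2 := Primrec.snd.comp r6
  have iZ : Primrec fun p : α × RW => Z p.1 := hZ.comp i0
  have js : UC fun p : (α × RW) × ℕ => uni (nth p.1.2.2.1 p.2) :=
    UC.code (primrec_nth.comp (w2.comp Primrec.fst) Primrec.snd)
  have a1 : PrimrecPred fun p : α × RW => p.2.1 ≤ Z p.1 := PrimrecRel.comp Primrec.nat_le w1 iZ
  have a2 : PrimrecPred fun p : α × RW => iv p.2.2.2.2.2.2.2.2 ≠ 0 := (IC.code w8).ne (IC.const 0)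
  have a3 : PrimrecPred fun p : α × RW => ∀ j < p.2.1 + 1, Sz (Z p.1) (uni (nth p.2.2.1 j)) :=
    primrec_all (R := fun (p : α × RW) j => Sz (Z p.1) (uni (nth p.2.2.1 j)))
      (js.sz (iZ.comp Primrec.fst)) (Primrec.succ.comp w1)
  have h5 : PC fun p : α × RW => ∑ j ∈ Finset.range (p.2.1 + 1),
      H85.SA.em (uni (nth p.2.2.1 j)) * A p.1 ^ (p.2.1 - j) * D p.1 ^ j :=
    PC.sum (F := fun (p : α × RW) j =>
      H85.SA.em (uni (nth p.2.2.1 j)) * A p.1 ^ (p.2.1 - j) * D p.1 ^ j)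
      ((js.em.mul ((hA.comp (i0.comp Primrec.fst)).pow
        (Primrec.nat_sub.comp (w1.comp Primrec.fst) Primrec.snd))).mul
        ((hD.comp (i0.comp Primrec.fst)).pow Primrec.snd)) (Primrec.succ.comp w1)
  have a4 := h5.eq ((hG.comp i0).mul (PC.code w3))
  have u1 : UC fun p : α × RW => spl p.2.1 (fun j => uni (nth p.2.2.1 j)) (iv p.2.2.2.2.1) :=
    uc_spl (s := fun (p : α × RW) j => uni (nth p.2.2.1 j)) w1 js (IC.code w4)
  have u2 : UC fun p : α × RW => spl p.2.1 (fun j => uni (nth p.2.2.1 j)) (iv p.2.2.2.2.2.1) :=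
    uc_spl (s := fun (p : α × RW) j => uni (nth p.2.2.1 j)) w1 js (IC.code w5)
  have a5 := (((UC.code w6).mul u1).add ((UC.code w7).mul u2)).eq (UC.C (IC.code w8))
  refine (SR.ex (P := fun (a : α) (w : RW) => w.1 ≤ Z a ∧ iv w.2.2.2.2.2.2.2 ≠ 0 ∧
    (∀ j < w.1 + 1, Sz (Z a) (uni (nth w.2.1 j))) ∧
    ∑ j ∈ Finset.range (w.1 + 1), H85.SA.em (uni (nth w.2.1 j)) * A a ^ (w.1 - j) * D a ^ j =
      G a * toPoly w.2.2.1 ∧
    uni w.2.2.2.2.2.1 * spl w.1 (fun j => uni (nth w.2.1 j)) (iv w.2.2.2.1) +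
      uni w.2.2.2.2.2.2.1 * spl w.1 (fun j => uni (nth w.2.1 j)) (iv w.2.2.2.2.1) =
      Polynomial.C (iv w.2.2.2.2.2.2.2))
    (SR.of_prim (a1.and (a2.and (a3.and (a4.and a5)))))).of_iff fun a => ⟨?_, ?_⟩
  · rintro ⟨N, s, Q, t1, t2, U, V, N1, h1, h2, h3, h4, h5⟩
    obtain ⟨l, hl⟩ := exists_unth s (N + 1)
    obtain ⟨Qc, rfl⟩ := exists_code Q
    obtain ⟨c1, rfl⟩ := exists_iv t1
    obtain ⟨c2, rfl⟩ := exists_iv t2
    obtain ⟨Uc, rfl⟩ := exists_uni U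
    obtain ⟨Vc, rfl⟩ := exists_uni V
    obtain ⟨c3, rfl⟩ := exists_iv N1
    refine ⟨(N, l, Qc, c1, c2, Uc, Vc, c3), h1, h2, fun j hj => ?_, ?_, ?_⟩
    · show Sz (Z a) (uni (nth l j))
      rw [hl j hj]
      exact h3 j (Nat.le_of_lt_succ hj)
    · show ∑ j ∈ Finset.range (N + 1), H85.SA.em (uni (nth l j)) * A a ^ (N - j) * D a ^ j =
        G a * toPoly Qc
      rw [← h4]
      exact Finset.sum_congr rfl fun j hj => by rw [hl j (Finset.mem_range.1 hj)]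
    · show uni Uc * spl N (fun j => uni (nth l j)) (iv c1) +
        uni Vc * spl N (fun j => uni (nth l j)) (iv c2) = Polynomial.C (iv c3)
      rw [← h5, spl_congr hl, spl_congr hl]
  · rintro ⟨w, h1, h2, h3, h4, h5⟩
    exact ⟨w.1, fun j => uni (nth w.2.1 j), toPoly w.2.2.1, iv w.2.2.2.1, iv w.2.2.2.2.1,
      uni w.2.2.2.2.2.1, uni w.2.2.2.2.2.2.1, iv w.2.2.2.2.2.2.2, h1, h2,
      fun j hj => h3 j (Nat.lt_succ_of_le hj), h4, h5⟩

/-- codes of the data: `[c, k, a]`, `[D, v]`, `[phi, h]`, `cc` -/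
abbrev DRC : Type := List ℕ × List Code × List (List Code) × List (ℕ × ℕ)

/-- the data of a code -/
noncomputable def drOf (x : DRC) : Dr where
  c := x.1.getD 0 0
  k := x.1.getD 1 0
  a := x.1.getD 2 0
  D := uni (nth x.2.1 0)
  phi := fun i => toPoly (nth2 x.2.2.1 0 i)
  h := fun i => toPoly (nth2 x.2.2.1 1 i)
  cc := fun i => iv (x.2.2.2.getD i (0, 0))
  v := toPoly (nth x.2.1 1)

section

variable {x : α → DRC} (hx : Primrec x)

include hx

theorem dr_nat (j : ℕ) : Primrec fun a => (x a).1.getD j 0 :=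
  (Primrec.list_getD (0 : ℕ)).comp (Primrec.fst.comp hx) (Primrec.const j)

theorem dr_cd (j : ℕ) : Primrec fun a => nth (x a).2.1 j :=
  primrec_nth.comp (Primrec.fst.comp (Primrec.snd.comp hx)) (Primrec.const j)

theorem dr_fm (j : ℕ) {i : α → ℕ} (hi : Primrec i) : Primrec fun a => nth2 (x a).2.2.1 j (i a) :=
  primrec_nth2.comp (Primrec.pair (Primrec.fst.comp (Primrec.snd.comp (Primrec.snd.comp hx)))
    (Primrec.pair (Primrec.const j) hi))

theorem dr_c : Primrec fun a => (drOf (x a)).c := dr_nat hx 0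

theorem dr_k : Primrec fun a => (drOf (x a)).k := dr_nat hx 1

theorem dr_a : Primrec fun a => (drOf (x a)).a := dr_nat hx 2

theorem dr_D : UC fun a => (drOf (x a)).D := UC.code (dr_cd hx 0)

theorem dr_v : PC fun a => (drOf (x a)).v := PC.code (dr_cd hx 1)

theorem dr_phi {i : α → ℕ} (hi : Primrec i) : PC fun a => (drOf (x a)).phi (i a) :=
  PC.code (dr_fm hx 0 hi)

theorem dr_h {i : α → ℕ} (hi : Primrec i) : PC fun a => (drOf (x a)).h (i a) :=
  PC.code (dr_fm hx 1 hi)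

theorem dr_cc {i : α → ℕ} (hi : Primrec i) : IC fun a => (drOf (x a)).cc (i a) :=
  IC.code ((Primrec.list_getD ((0, 0) : ℕ × ℕ)).comp (Primrec.snd.comp (Primrec.snd.comp
    (Primrec.snd.comp hx))) hi)

end

/-- all data have codes -/
theorem exists_drc (d : Dr) : ∃ x : DRC, (drOf x).c = d.c ∧ (drOf x).k = d.k ∧ (drOf x).a = d.a ∧
    (drOf x).D = d.D ∧ (drOf x).v = d.v ∧ (∀ i < d.k, (drOf x).phi i = d.phi i) ∧
    (∀ i < d.k, (drOf x).h i = d.h i) ∧ ∀ i < d.k, (drOf x).cc i = d.cc i := by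
  obtain ⟨D, hD⟩ := exists_uni d.D
  obtain ⟨v, hv⟩ := exists_code d.v
  obtain ⟨phi, hphi⟩ := exists_nth d.phi d.k
  obtain ⟨h, hh⟩ := exists_nth d.h d.k
  choose cc hcc using fun k => exists_iv (d.cc k)
  refine ⟨([d.c, d.k, d.a], [D, v], [phi, h], (List.range d.k).map cc), rfl, rfl, rfl, hD, hv,
    hphi, hh, fun i hi => ?_⟩
  show iv (((List.range d.k).map cc).getD i (0, 0)) = d.cc i
  rw [getD_map_range _ _ _ _ hi, hcc]

theorem cer2_congr {F : P2} {Z : ℕ} {d d' : Dr} (h : Cer2 F Z d) (hc : d'.c = d.c)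
    (hk : d'.k = d.k) (ha : d'.a = d.a) (hD : d'.D = d.D) (hv : d'.v = d.v)
    (hphi : ∀ i < d.k, d'.phi i = d.phi i) (hh : ∀ i < d.k, d'.h i = d.h i)
    (hcc : ∀ i < d.k, d'.cc i = d.cc i) : Cer2 F Z d' where
  Z2 := h.Z2
  cZ := by rw [hc]; exact h.cZ
  lc := by rw [hc]; exact h.lc
  dZ := by rw [hc]; exact h.dZ
  FZ := by rw [hc]; exact h.FZ
  kZ := by rw [hk]; exact h.kZ
  a1 := by rw [ha]; exact h.a1
  D0 := by rw [hD]; exact h.D0
  DZ := by rw [hD]; exact h.DZ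
  ccZ := by
    rw [hk]
    intro i hi
    rw [hcc i hi]
    exact h.ccZ i hi
  eqh := by
    rw [hk, hc, hD, ha]
    intro i hi
    rw [hphi i hi, hh i hi]
    exact h.eqh i hi
  bh := by
    rw [hk, hc, hD]
    intro i hi
    rw [hh i hi]
    exact h.bh i hi
  eqs := by
    rw [hc, hv, hk, hD]
    have h1 : ∑ i ∈ Finset.range d.k, MvPolynomial.C (d'.cc i) * d'.h i =
        ∑ i ∈ Finset.range d.k, MvPolynomial.C (d.cc i) * d.h i :=
      Finset.sum_congr rfl fun i hi => by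
        rw [hcc i (Finset.mem_range.1 hi), hh i (Finset.mem_range.1 hi)]
    rw [h1]
    exact h.eqs
  bv := by rw [hc, hD, hv]; exact h.bv
  ig := by
    rw [hk, hc, hD]
    intro i hi
    rw [hphi i hi]
    exact h.ig i hi
  rl := by
    rw [hk, hc, hD]
    intro i hi
    rw [hphi i hi]
    exact h.rl i hi

theorem sr_cer2_of {F : α → P2} (hF : PC F) {Z : α → ℕ} (hZ : Primrec Z) {x : α → DRC}
    (hx : Primrec x) : SR fun a => Cer2 (F a) (Z a) (drOf (x a)) := by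
  have hc := dr_c hx
  have hk := dr_k hx
  have ha := dr_a hx
  have hD := dr_D hx
  have hv := dr_v hx
  have hG : PC fun a => H98.AL.shf (drOf (x a)).c (F a) := hF.shf hc
  have hG' : PC fun p : α × ℕ => H98.AL.shf (drOf (x p.1)).c (F p.1) := hG.comp Primrec.fst
  have hDe : PC fun a => H85.SA.em (drOf (x a)).D := hD.em
  have hDe' : PC fun p : α × ℕ => H85.SA.em (drOf (x p.1)).D := hDe.comp Primrec.fst
  have hZ' : Primrec fun p : α × ℕ => Z p.1 := hZ.comp Primrec.fst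
  have hx' : Primrec fun p : α × ℕ => x p.1 := hx.comp Primrec.fst
  have htd : Primrec fun a => (H98.AL.shf (drOf (x a)).c (F a)).totalDegree := hG.totalDegree
  have leZ : ∀ {f : α → ℕ}, Primrec f → PrimrecPred fun a => f a ≤ Z a := fun hf =>
    PrimrecRel.comp Primrec.nat_le hf hZ
  have hphi : PC fun p : α × ℕ => (drOf (x p.1)).phi p.2 := dr_phi hx' Primrec.snd
  have hh : PC fun p : α × ℕ => (drOf (x p.1)).h p.2 := dr_h hx' Primrec.snd
  have hcc : IC fun p : α × ℕ => (drOf (x p.1)).cc p.2 := dr_cc hx' Primrec.snd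
  have a1 : PrimrecPred fun a => 2 ≤ Z a := leZ (Primrec.const 2)
  have a2 : PrimrecPred fun a => MvPolynomial.coeff
      (Finsupp.single 1 (H98.AL.shf (drOf (x a)).c (F a)).totalDegree)
      (H98.AL.shf (drOf (x a)).c (F a)) ≠ 0 := by
    have h := (hG.coeff (Primrec.const 0) htd).ne (IC.const 0)
    simpa only [ex_zero_right] using h
  have a3 := hG.height hZ
  have a4 : PrimrecPred fun a => 1 ≤ (drOf (x a)).a :=
    PrimrecRel.comp Primrec.nat_le (Primrec.const 1) ha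
  have a5 := hD.ne_zero
  have a6 := hD.sz hZ
  have a7 : PrimrecPred fun a => ∀ i < (drOf (x a)).k, |(drOf (x a)).cc i| ≤ (Z a : ℤ) := by
    refine primrec_all (R := fun a i => |(drOf (x a)).cc i| ≤ (Z a : ℤ)) ?_ hk
    refine (PrimrecRel.comp Primrec.nat_le hcc.natAbs hZ').of_eq fun p => ?_
    rw [← Int.natCast_natAbs, Nat.cast_le]
  have b1 : SR fun a => ∀ i < (drOf (x a)).k, Eqv (H98.AL.shf (drOf (x a)).c (F a))
      ((H85.SA.em (drOf (x a)).D ^ 2 + MvPolynomial.C ((drOf (x a)).a : ℤ) *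
        (drOf (x a)).phi i ^ 2) * (drOf (x a)).h i) (H85.SA.em (drOf (x a)).D ^ 3) :=
    SR.all (P := fun a i => Eqv (H98.AL.shf (drOf (x a)).c (F a))
      ((H85.SA.em (drOf (x a)).D ^ 2 + MvPolynomial.C ((drOf (x a)).a : ℤ) *
        (drOf (x a)).phi i ^ 2) * (drOf (x a)).h i) (H85.SA.em (drOf (x a)).D ^ 3))
      (sr_eqv hG' (((hDe'.pow (Primrec.const 2)).add
        ((PC.C (IC.nat (ha.comp Primrec.fst))).mul (hphi.pow (Primrec.const 2)))).mul hh)
        (hDe'.pow (Primrec.const 3))) hk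
  have b2 : SR fun a => ∀ i < (drOf (x a)).k, Bd (H98.AL.shf (drOf (x a)).c (F a)) (Z a)
      (H85.SA.em (drOf (x a)).D) ((drOf (x a)).h i) :=
    SR.all (P := fun a i => Bd (H98.AL.shf (drOf (x a)).c (F a)) (Z a)
      (H85.SA.em (drOf (x a)).D) ((drOf (x a)).h i)) (sr_bd hG' hZ' hDe' hh) hk
  have b3 : SR fun a => Eqv (H98.AL.shf (drOf (x a)).c (F a))
      ((drOf (x a)).v * ∑ i ∈ Finset.range (drOf (x a)).k,
        MvPolynomial.C ((drOf (x a)).cc i) * (drOf (x a)).h i) (H85.SA.em (drOf (x a)).D ^ 2) :=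
    sr_eqv hG (hv.mul (PC.sum (F := fun a i => MvPolynomial.C ((drOf (x a)).cc i) *
      (drOf (x a)).h i) ((PC.C hcc).mul hh) hk)) (hDe.pow (Primrec.const 2))
  have b4 := sr_bd hG hZ hDe hv
  have b5 : SR fun a => ∀ i < (drOf (x a)).k, Ig (H98.AL.shf (drOf (x a)).c (F a)) (Z a)
      (H85.SA.em (drOf (x a)).D) ((drOf (x a)).phi i) :=
    SR.all (P := fun a i => Ig (H98.AL.shf (drOf (x a)).c (F a)) (Z a)
      (H85.SA.em (drOf (x a)).D) ((drOf (x a)).phi i)) (sr_ig hG' hZ' hDe' hphi) hk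
  have b6 : SR fun a => ∀ i < (drOf (x a)).k, Rl (H98.AL.shf (drOf (x a)).c (F a)) (Z a)
      (H85.SA.em (drOf (x a)).D) ((drOf (x a)).phi i) :=
    SR.all (P := fun a i => Rl (H98.AL.shf (drOf (x a)).c (F a)) (Z a)
      (H85.SA.em (drOf (x a)).D) ((drOf (x a)).phi i)) (sr_rl hG' hZ' hDe' hphi) hk
  have g1 := a1.and ((leZ hc).and (a2.and ((leZ htd).and (a3.and ((leZ hk).and (a4.and
    (a5.and (a6.and a7))))))))
  have g2 := b1.and (b2.and (b3.and (b4.and (b5.and b6))))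
  refine ((SR.of_prim g1).and g2).of_iff fun a => ⟨fun h => ?_, fun h => ?_⟩
  · exact ⟨⟨h.Z2, h.cZ, h.lc, h.dZ, h.FZ, h.kZ, h.a1, h.D0, h.DZ, h.ccZ⟩,
      ⟨h.eqh, h.bh, h.eqs, h.bv, h.ig, h.rl⟩⟩
  · obtain ⟨⟨Z2, cZ, lc, dZ, FZ, kZ, a1, D0, DZ, ccZ⟩, ⟨eqh, bh, eqs, bv, ig, rl⟩⟩ := h
    exact ⟨Z2, cZ, lc, dZ, FZ, kZ, a1, D0, DZ, ccZ, eqh, bh, eqs, bv, ig, rl⟩

theorem sr_cer2 {F : α → P2} (hF : PC F) {Z : α → ℕ} (hZ : Primrec Z) :
    SR fun a => ∃ d, Cer2 (F a) (Z a) d := by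
  have h1 : SR fun p : α × DRC => Cer2 (F p.1) (Z p.1) (drOf p.2) :=
    sr_cer2_of (hF.comp Primrec.fst) (hZ.comp Primrec.fst) Primrec.snd
  refine (SR.ex (P := fun (a : α) (x : DRC) => Cer2 (F a) (Z a) (drOf x)) h1).of_iff
    fun a => ⟨fun ⟨d, hd⟩ => ?_, fun ⟨x, hx⟩ => ⟨_, hx⟩⟩
  obtain ⟨x, h1, h2, h3, h4, h5, h6, h7, h8⟩ := exists_drc d
  exact ⟨x, cer2_congr hd h1 h2 h3 h4 h5 h6 h7 h8⟩

end Pool.Agent.H37.SFA
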